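import Pool.Agent.H32.S36.Targets

/-!
# ODP
-/

set_option autoImplicit false

namespace Pool.Agent.H62.S36

open Pool.Agent.H32.S36 Polynomial

lemma cc_zero' {m i : ℕ} (h : m ≤ i) : cc m i = 0 := by
  unfold cc
  refine Finset.sum_eq_zero fun n hn => ?_
  rw [Nat.choose_eq_zero_of_lt (by have := Finset.mem_range.1 hn; omega)]
  simp

/-- The coefficient of `LL (TT m)` at `i + 1`. -/
def rho (m i : ℕ) : ℤ := (i : ℤ) ^ 3 * cc m (i - 1)
    - 2 * (2 * (i : ℤ) + 1) * (3 * (i : ℤ) ^ 2 + 3 * i + 1) * cc m i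
    - 4 * ((i : ℤ) + 1) * (4 * i + 3) * (4 * i + 5) * cc m (i + 1)

lemma rho_big {m i : ℕ} (h : m < i) : rho m i = 0 := by
  unfold rho
  rw [cc_zero' (by omega), cc_zero' (by omega), cc_zero' (by omega)]
  ring

lemma cc_top (k : ℕ) : cc (k + 1) k = 1 := by
  unfold cc
  rw [Finset.sum_range_succ, Finset.sum_eq_zero]
  · simp
  · intro n hn
    rw [Nat.choose_eq_zero_of_lt (by simpa using hn)]
    simp

lemma rho_top (k : ℕ) : rho (k + 1) (k + 1) = ((k + 1 : ℕ) : ℤ) ^ 3 := by
  unfold rho
  rw [Nat.add_sub_cancel, cc_top, cc_zero' (le_refl _), cc_zero' (by omega)]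
  ring

lemma rho_pred (k : ℕ) : ((k + 2 : ℕ) : ℤ) ^ 2 ∣ rho (k + 2) (k + 1) := by
  unfold rho
  have h1 : cc (k + 2) k = 1 + ((k : ℤ) + 1) ^ 4 := by
    unfold cc
    rw [Finset.sum_range_succ, Finset.sum_range_succ, Finset.sum_eq_zero]
    · simp
    · intro n hn
      rw [Nat.choose_eq_zero_of_lt (by simpa using hn)]
      simp
  rw [Nat.add_sub_cancel, h1, cc_top (k + 1), cc_zero' (le_refl (k + 2))]
  refine ⟨((k : ℤ) + 2) ^ 5 - 7 * ((k : ℤ) + 2) ^ 4 + 21 * ((k : ℤ) + 2) ^ 3 -
    35 * ((k : ℤ) + 2) ^ 2 + 24 * ((k : ℤ) + 2) - 6, ?_⟩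
  push_cast
  ring

/-- ODP. -/
theorem m_ODP (h1 : T_RHO) (h2 : T_LLC) (h3 : T_TTC) : T_ODP := by
  have hc : ∀ m i : ℕ, (LL (TT m)).coeff (i + 1) = rho m i := by
    intro m i
    rw [(h2 (TT m)).2 i, h3.1, h3.1, h3.1]
    rfl
  have hr : ∀ m i : ℕ, ((i : ℤ) + 1) ^ 3 * rho m i = ((m.choose i : ℕ) : ℤ) ^ 4 * UP m i :=
    fun m i => h1 m i
  have hz : ∀ m : ℕ, rho m 0 = (m : ℤ) ^ 3 * (-20 + 30 * m - 12 * m ^ 2) := by
    intro m
    have := hr m 0
    unfold UP at this
    simp at this
    rw [this]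
    ring
  intro p hp hp2
  have hpz : Prime (p : ℤ) := Nat.prime_iff_prime_int.1 hp
  refine ⟨?_, ?_⟩
  · intro k
    rcases k with _ | i
    · rw [(h2 _).1]; exact dvd_zero _
    rw [hc]
    obtain ⟨q, rfl⟩ : ∃ q, p = q + 2 := ⟨p - 2, by have := hp.two_le; omega⟩
    rcases lt_trichotomy i (q + 2) with h | h | h
    · rcases Nat.eq_zero_or_pos i with h0 | h0
      · rw [h0, hz]
        exact Dvd.dvd.mul_right (pow_dvd_pow _ (by omega)) _
      · by_cases h4 : i = q + 1
        · rw [h4]
          exact rho_pred q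
        · have hd : ((q + 2 : ℕ) : ℤ) ∣ (((q + 2).choose i : ℕ) : ℤ) := by
            exact_mod_cast hp.dvd_choose_self (by omega) h
          have h5 : ((q + 2 : ℕ) : ℤ) ^ 4 ∣ ((i : ℤ) + 1) ^ 3 * rho (q + 2) i := by
            rw [hr]
            exact Dvd.dvd.mul_right (pow_dvd_pow_of_dvd hd 4) _
          have h6 : ¬ ((q + 2 : ℕ) : ℤ) ∣ ((i : ℤ) + 1) ^ 3 := by
            intro h7
            have h8 := hpz.dvd_of_dvd_pow h7
            have h9 : (q + 2) ∣ (i + 1) := by exact_mod_cast h8
            have := Nat.le_of_dvd (by omega) h9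
            omega
          exact dvd_trans (pow_dvd_pow _ (by omega)) (hpz.pow_dvd_of_dvd_mul_left 4 h6 h5)
    · subst h
      rw [rho_top (q + 1)]
      exact pow_dvd_pow _ (by omega)
    · rw [rho_big h]
      exact dvd_zero _
  · intro k
    rcases k with _ | i
    · rw [(h2 _).1]; exact dvd_zero _
    rw [hc]
    have hp3 : 3 ≤ p := by have := hp.two_le; omega
    have hm : 9 ≤ p ^ 2 := by nlinarith
    have e4 : (p : ℤ) ^ 4 = ((p ^ 2 : ℕ) : ℤ) ^ 2 := by push_cast; ring
    obtain ⟨q, hq⟩ : ∃ q, p ^ 2 = q + 2 := ⟨p ^ 2 - 2, by omega⟩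
    rcases lt_trichotomy i (p ^ 2) with h | h | h
    · rcases Nat.eq_zero_or_pos i with h0 | h0
      · rw [h0, hz, e4]
        exact Dvd.dvd.mul_right (pow_dvd_pow _ (by omega)) _
      · by_cases h4 : i = q + 1
        · rw [h4, e4, hq]
          exact rho_pred q
        · have hchoose : i * (p ^ 2).choose i = p ^ 2 * (p ^ 2 - 1).choose (i - 1) := by
            have := Nat.add_one_mul_choose_eq (p ^ 2 - 1) (i - 1)
            rw [Nat.sub_add_cancel (by omega), Nat.sub_add_cancel h0] at this
            rw [this]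
            ring
          by_cases hpi : p ∣ i
          · -- p divides i
            obtain ⟨j, rfl⟩ := hpi
            have hj : j * (p ^ 2).choose (p * j) = p * (p ^ 2 - 1).choose (p * j - 1) := by
              apply Nat.eq_of_mul_eq_mul_left hp.pos
              rw [← mul_assoc, hchoose]
              ring
            have hpj : ¬ p ∣ j := by
              intro hd
              have hj0 : 0 < j := Nat.pos_of_mul_pos_left h0 |> fun _ => by
                rcases Nat.eq_zero_or_pos j with hj0 | hj0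
                · rw [hj0] at h0; simp at h0
                · exact hj0
              have := Nat.le_of_dvd hj0 hd
              nlinarith
            have hd : p ∣ (p ^ 2).choose (p * j) := by
              have : p ∣ j * (p ^ 2).choose (p * j) := by rw [hj]; exact dvd_mul_right _ _
              exact (hp.dvd_mul.1 this).resolve_left hpj
            have h5 : (p : ℤ) ^ 4 ∣ (((p * j : ℕ) : ℤ) + 1) ^ 3 * rho (p ^ 2) (p * j) := by
              rw [hr]
              exact Dvd.dvd.mul_right (pow_dvd_pow_of_dvd (by exact_mod_cast hd) 4) _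
            have h6 : ¬ (p : ℤ) ∣ (((p * j : ℕ) : ℤ) + 1) ^ 3 := by
              intro h7
              have h8 := hpz.dvd_of_dvd_pow h7
              have h9 : p ∣ (p * j + 1) := by exact_mod_cast h8
              have h10 : p ∣ 1 := (Nat.dvd_add_right (dvd_mul_right p j)).1 h9
              exact hp.one_lt.ne' (Nat.dvd_one.1 h10)
            exact hpz.pow_dvd_of_dvd_mul_left 4 h6 h5
          · have hd : p ^ 2 ∣ (p ^ 2).choose i := by
              have h7 : p ^ 2 ∣ i * (p ^ 2).choose i := by rw [hchoose]; exact dvd_mul_right _ _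
              exact (Nat.Coprime.dvd_mul_left
                (Nat.Coprime.pow_left 2 ((Nat.Prime.coprime_iff_not_dvd hp).2 hpi))).1 h7
            have h5 : (p : ℤ) ^ 8 ∣ ((i : ℤ) + 1) ^ 3 * rho (p ^ 2) i := by
              rw [hr]
              have : (p : ℤ) ^ 8 = ((p : ℤ) ^ 2) ^ 4 := by ring
              rw [this]
              exact Dvd.dvd.mul_right (pow_dvd_pow_of_dvd (by exact_mod_cast hd) 4) _
            by_cases h6 : p ∣ i + 1
            · obtain ⟨u, hu⟩ := h6
              have hpu : ¬ p ∣ u := by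
                intro hd2
                have hu0 : 0 < u := by
                  rcases Nat.eq_zero_or_pos u with hj0 | hj0
                  · rw [hj0] at hu; omega
                  · exact hj0
                have := Nat.le_of_dvd hu0 hd2
                have hlt : i + 1 < p ^ 2 := by omega
                nlinarith
              have e : ((i : ℤ) + 1) = p * u := by exact_mod_cast hu
              rw [e] at h5
              have h7 : (p : ℤ) ^ 3 * (p : ℤ) ^ 5 ∣ (p : ℤ) ^ 3 * ((u : ℤ) ^ 3 * rho (p ^ 2) i) := by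
                have e1 : (p : ℤ) ^ 3 * (p : ℤ) ^ 5 = (p : ℤ) ^ 8 := by ring
                have e2 : (p : ℤ) ^ 3 * ((u : ℤ) ^ 3 * rho (p ^ 2) i) =
                  ((p : ℤ) * u) ^ 3 * rho (p ^ 2) i := by ring
                rw [e1, e2]
                exact h5
              have h8 := (mul_dvd_mul_iff_left (pow_ne_zero 3 hpz.ne_zero)).1 h7
              have h9 : ¬ (p : ℤ) ∣ (u : ℤ) ^ 3 := by
                intro h10
                exact hpu (by exact_mod_cast hpz.dvd_of_dvd_pow h10)
              exact dvd_trans (pow_dvd_pow _ (by omega)) (hpz.pow_dvd_of_dvd_mul_left 5 h9 h8)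
            · have h9 : ¬ (p : ℤ) ∣ ((i : ℤ) + 1) ^ 3 := by
                intro h10
                exact h6 (by exact_mod_cast hpz.dvd_of_dvd_pow h10)
              exact dvd_trans (pow_dvd_pow _ (by omega)) (hpz.pow_dvd_of_dvd_mul_left 8 h9 h5)
    · subst h
      have : rho (p ^ 2) (p ^ 2) = ((p ^ 2 : ℕ) : ℤ) ^ 3 := by
        rw [hq]
        exact rho_top (q + 1)
      rw [this, e4]
      exact pow_dvd_pow _ (by omega)
    · rw [rho_big h]
      exact dvd_zero _

end Pool.Agent.H62.S36
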