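import Pool.Agent.H32.S36.Targets

/-!
# TTC, SUM, LLC, RHO
-/

set_option autoImplicit false

namespace Pool.Agent.H62.S36

open Pool.Agent.H32.S36 Polynomial

lemma cc_zero {m i : ℕ} (h : m ≤ i) : cc m i = 0 := by
  unfold cc
  refine Finset.sum_eq_zero fun n hn => ?_
  rw [Nat.choose_eq_zero_of_lt (by have := Finset.mem_range.1 hn; omega)]
  simp

lemma TT_coeff (m i : ℕ) : (TT m).coeff i = cc m i := by
  unfold TT
  rw [finsetSum_coeff]
  simp only [coeff_C_mul_X_pow]
  rw [Finset.sum_ite_eq]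
  split_ifs with h
  · rfl
  · rw [cc_zero (by simpa using h)]

lemma TT_eval (m : ℕ) : (TT m).eval 36 = ∑ i ∈ Finset.range m, cc m i * 36 ^ i := by
  unfold TT
  rw [eval_finset_sum]
  simp

/-- TTC. -/
theorem m_TTC : T_TTC := by
  refine ⟨TT_coeff, ?_, ?_⟩
  · intro m
    rw [TT_eval]
    unfold thP
    rw [eval_mul, eval_X]
    have : (derivative (TT m)).eval 36 =
        ∑ i ∈ Finset.range m, cc m i * (i * 36 ^ (i - 1)) := by
      unfold TT
      rw [derivative_sum, eval_finset_sum]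
      refine Finset.sum_congr rfl fun i _ => ?_
      rw [derivative_C_mul_X_pow]
      simp
      ring
    rw [this]
    unfold AA
    rw [Finset.mul_sum, Finset.mul_sum, Finset.mul_sum, ← Finset.sum_add_distrib]
    refine Finset.sum_congr rfl fun i _ => ?_
    rcases i with _ | i
    · simp
    · simp only [Nat.add_sub_cancel]
      push_cast
      ring
  · intro m hm
    obtain ⟨m, rfl⟩ : ∃ k, m = k + 1 := ⟨m - 1, by omega⟩
    have h1 : (TT (m + 1)).coeff m = 1 := by
      rw [TT_coeff]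
      unfold cc
      rw [Finset.sum_range_succ, Finset.sum_eq_zero]
      · simp
      · intro n hn
        rw [Nat.choose_eq_zero_of_lt (by simpa using hn)]
        simp
    have h2 : (TT (m + 1)).natDegree = m := by
      apply natDegree_eq_of_le_of_coeff_ne_zero
      · rw [natDegree_le_iff_coeff_eq_zero]
        intro N hN
        rw [TT_coeff, cc_zero (by omega)]
      · rw [h1]; exact one_ne_zero
    refine ⟨by rw [h2]; rfl, ?_⟩
    rw [leadingCoeff, h2, h1]

/-- SUM. -/
theorem m_SUM : T_SUM := by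
  intro S hS m
  have hS' : ∀ j ∈ Finset.range m, S j =
      ∑ i ∈ Finset.range m, (36 : ℤ) ^ i * ((j.choose i : ℕ) : ℤ) ^ 4 := by
    intro j hj
    rw [hS j]
    refine Finset.sum_subset ?_ ?_
    · intro i hi
      simp only [Finset.mem_range] at *
      omega
    · intro i _ hi
      rw [Nat.choose_eq_zero_of_lt (by simpa using hi)]
      simp
  refine ⟨?_, ?_⟩
  · rw [TT_eval, Finset.sum_congr rfl hS', Finset.sum_comm]
    refine Finset.sum_congr rfl fun i _ => ?_
    unfold cc
    rw [← Finset.mul_sum]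
    ring
  · have : ∑ j ∈ Finset.range m, (8 * (j : ℤ) + 7) * S j =
        ∑ j ∈ Finset.range m, ∑ i ∈ Finset.range m,
          (8 * (j : ℤ) + 7) * ((36 : ℤ) ^ i * ((j.choose i : ℕ) : ℤ) ^ 4) := by
      refine Finset.sum_congr rfl fun j hj => ?_
      rw [hS' j hj, Finset.mul_sum]
    rw [this, Finset.sum_comm]
    unfold AA BB bb cc
    rw [Finset.mul_sum, ← Finset.sum_add_distrib]
    refine Finset.sum_congr rfl fun i _ => ?_
    rw [Finset.mul_sum, Finset.sum_mul, Finset.sum_mul, Finset.mul_sum, ← Finset.sum_add_distrib]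
    refine Finset.sum_congr rfl fun j _ => ?_
    ring

lemma LL_add (P Q : ℤ[X]) : LL (P + Q) = LL P + LL Q := by
  unfold LL LA
  simp only [derivative_add, derivative_mul]
  ring

lemma euler (n : ℕ) (a : ℤ) : X * derivative (C a * X ^ n : ℤ[X]) = C a * (n : ℤ[X]) * X ^ n := by
  rw [derivative_C_mul_X_pow]
  rcases n with _ | n
  · simp
  · simp only [Nat.add_sub_cancel, map_mul]
    push_cast
    have : (C ((n : ℤ) + 1) : ℤ[X]) = (n : ℤ[X]) + 1 := by simp
    rw [this]
    ring

lemma LA_mono (n : ℕ) (a : ℤ) : LA (C a * X ^ n) = C (a * (n ^ 2 + n)) * X ^ (n + 2) -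
    C (a * (12 * n ^ 2 + 6 * n)) * X ^ (n + 1) - C (a * (64 * n ^ 2)) * X ^ n := by
  have e1 := euler n a
  have e2 : X ^ 2 * derivative (derivative (C a * X ^ n : ℤ[X])) =
      C a * ((n : ℤ[X]) ^ 2 - (n : ℤ[X])) * X ^ n := by
    have h : X * derivative (X * derivative (C a * X ^ n : ℤ[X])) =
        X * derivative (C a * (n : ℤ[X]) * X ^ n) := by rw [e1]
    rw [derivative_mul (f := X), derivative_X] at h
    have e3 : X * derivative (C a * (n : ℤ[X]) * X ^ n : ℤ[X]) = C a * (n : ℤ[X]) ^ 2 * X ^ n := by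
      have := euler n (a * n)
      have hc : (C (a * (n : ℤ)) : ℤ[X]) = C a * (n : ℤ[X]) := by simp
      rw [hc] at this
      rw [this]
      ring
    rw [e3] at h
    linear_combination h - e1
  unfold LA q2
  have : ((X * (X ^ 2 - 12 * X - 64) + X ^ 2 * (X - 6)) * derivative (C a * X ^ n) +
      X ^ 2 * (X ^ 2 - 12 * X - 64) * derivative (derivative (C a * X ^ n)) : ℤ[X]) =
      ((X ^ 2 - 12 * X - 64) + X * (X - 6)) * (X * derivative (C a * X ^ n)) +
      (X ^ 2 - 12 * X - 64) * (X ^ 2 * derivative (derivative (C a * X ^ n))) := by ring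
  rw [this, e1, e2]
  simp only [map_mul, map_add, map_pow, map_natCast, map_ofNat]
  ring

lemma LL_mono (n : ℕ) (a : ℤ) : LL (C a * X ^ n) = C (a * (n + 1) ^ 3) * X ^ (n + 2) -
    C (a * (2 * (2 * n + 1) * (3 * n ^ 2 + 3 * n + 1))) * X ^ (n + 1) -
    C (a * (4 * n * (16 * n ^ 2 - 1))) * X ^ n := by
  unfold LL
  rw [LA_mono]
  have : (X * (derivative (C (a * (n ^ 2 + n)) * X ^ (n + 2) -
      C (a * (12 * n ^ 2 + 6 * n)) * X ^ (n + 1) - C (a * (64 * n ^ 2)) * X ^ n) +
      (X - 2) ^ 2 * derivative (C a * X ^ n) + (X - 2) * (C a * X ^ n)) : ℤ[X]) =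
      X * derivative (C (a * (n ^ 2 + n)) * X ^ (n + 2) : ℤ[X]) -
      X * derivative (C (a * (12 * n ^ 2 + 6 * n)) * X ^ (n + 1) : ℤ[X]) -
      X * derivative (C (a * (64 * n ^ 2)) * X ^ n : ℤ[X]) +
      (X - 2) ^ 2 * (X * derivative (C a * X ^ n : ℤ[X])) + X * (X - 2) * (C a * X ^ n) := by
    rw [derivative_sub, derivative_sub]
    ring
  rw [this, euler, euler, euler, euler]
  simp only [map_mul, map_add, map_sub, map_pow, map_natCast, map_ofNat, map_one, Nat.cast_add,
    Nat.cast_ofNat, Nat.cast_one]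
  ring

/-- LLC. -/
theorem m_LLC : T_LLC := by
  intro P
  induction P using Polynomial.induction_on' with
  | add P Q hP hQ =>
    rw [LL_add]
    refine ⟨by rw [coeff_add, hP.1, hQ.1, add_zero], ?_⟩
    intro i
    rw [coeff_add, hP.2 i, hQ.2 i]
    simp only [coeff_add]
    ring
  | monomial n a =>
    rw [← C_mul_X_pow_eq_monomial, LL_mono]
    refine ⟨?_, ?_⟩
    · simp only [coeff_sub, coeff_C_mul_X_pow]
      rw [if_neg (by omega), if_neg (by omega)]
      rcases n with _ | n
      · simp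
      · rw [if_neg (by omega)]
        simp
    · intro i
      simp only [coeff_sub, coeff_C_mul_X_pow]
      have h1 : (if i + 1 = n + 2 then a * ((n : ℤ) + 1) ^ 3 else 0) =
          (i : ℤ) ^ 3 * (if i - 1 = n then a else 0) := by
        rcases i with _ | i
        · rw [if_neg (by omega)]
          simp
        · by_cases h : i = n
          · subst h
            rw [if_pos (by omega), if_pos (by omega)]
            push_cast
            ring
          · rw [if_neg (by omega), if_neg (by omega)]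
            ring
      have h2 : (if i + 1 = n + 1 then a * (2 * (2 * (n : ℤ) + 1) * (3 * n ^ 2 + 3 * n + 1))
          else 0) = 2 * (2 * (i : ℤ) + 1) * (3 * (i : ℤ) ^ 2 + 3 * i + 1) *
            (if i = n then a else 0) := by
        by_cases h : i = n
        · subst h
          rw [if_pos rfl, if_pos rfl]
          ring
        · rw [if_neg (by omega), if_neg h]
          ring
      have h3 : (if i + 1 = n then a * (4 * (n : ℤ) * (16 * n ^ 2 - 1)) else 0) =
          4 * ((i : ℤ) + 1) * (4 * i + 3) * (4 * i + 5) * (if i + 1 = n then a else 0) := by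
        by_cases h : i + 1 = n
        · subst h
          rw [if_pos rfl, if_pos rfl]
          push_cast
          ring
        · rw [if_neg h, if_neg h]
          ring
      rw [h1, h2, h3]

lemma rho_step (m i : ℕ) :
    (((m + 1).choose i : ℕ) : ℤ) ^ 4 * UP (m + 1) i - ((m.choose i : ℕ) : ℤ) ^ 4 * UP m i =
    ((i : ℤ) + 1) ^ 3 * ((i : ℤ) ^ 3 * ((m.choose (i - 1) : ℕ) : ℤ) ^ 4
    - 2 * (2 * (i : ℤ) + 1) * (3 * (i : ℤ) ^ 2 + 3 * i + 1) * ((m.choose i : ℕ) : ℤ) ^ 4
    - 4 * ((i : ℤ) + 1) * (4 * i + 3) * (4 * i + 5) * ((m.choose (i + 1) : ℕ) : ℤ) ^ 4) := by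
  rcases i with _ | j
  · unfold UP
    simp
    ring
  · simp only [Nat.add_sub_cancel]
    obtain ⟨a, ha⟩ : ∃ a : ℚ, a = ((m.choose j : ℕ) : ℚ) := ⟨_, rfl⟩
    obtain ⟨b, hb⟩ : ∃ b : ℚ, b = ((m.choose (j + 1) : ℕ) : ℚ) := ⟨_, rfl⟩
    obtain ⟨c, hc⟩ : ∃ c : ℚ, c = ((m.choose (j + 1 + 1) : ℕ) : ℚ) := ⟨_, rfl⟩
    have hj1 : ((j : ℚ) + 1) ≠ 0 := by positivity
    have hj2 : ((j : ℚ) + 2) ≠ 0 := by positivity
    have key : ∀ k : ℕ, ((m.choose (k + 1) : ℕ) : ℚ) * (k + 1) =
        ((m.choose k : ℕ) : ℚ) * ((m : ℚ) - k) := by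
      intro k
      have h := Nat.choose_succ_right_eq m k
      rcases le_or_gt k m with hk | hk
      · have h' : (((m.choose (k + 1) * (k + 1) : ℕ)) : ℚ) = ((m.choose k * (m - k) : ℕ) : ℚ) := by
          rw [h]
        push_cast [hk] at h'
        exact h'
      · rw [Nat.choose_eq_zero_of_lt hk, Nat.choose_eq_zero_of_lt (by omega)]
        simp
    have hb' : b = a * ((m : ℚ) - j) / (j + 1) := by
      rw [eq_div_iff hj1, ha, hb]
      exact key j
    have hc' : c = b * ((m : ℚ) - j - 1) / (j + 2) := by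
      rw [eq_div_iff hj2, hc, hb]
      have := key (j + 1)
      push_cast at this
      linear_combination this
    have hd : (((m + 1).choose (j + 1) : ℕ) : ℚ) = a + b := by
      rw [Nat.choose_succ_succ, ha, hb]
      push_cast
      ring
    have goal : (a + b) ^ 4 * (UP (m + 1) (j + 1) : ℤ) - b ^ 4 * (UP m (j + 1) : ℤ) =
        ((j : ℚ) + 1 + 1) ^ 3 * (((j : ℚ) + 1) ^ 3 * a ^ 4
        - 2 * (2 * ((j : ℚ) + 1) + 1) * (3 * ((j : ℚ) + 1) ^ 2 + 3 * ((j : ℚ) + 1) + 1) * b ^ 4
        - 4 * (((j : ℚ) + 1) + 1) * (4 * ((j : ℚ) + 1) + 3) * (4 * ((j : ℚ) + 1) + 5) * c ^ 4) := by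
      rw [hc', hb']
      unfold UP
      push_cast
      field_simp
      ring
    have h := goal
    rw [← hd, hb, ha, hc] at h
    exact_mod_cast h

/-- RHO. -/
theorem m_RHO : T_RHO := by
  intro m i
  induction m with
  | zero =>
    rw [cc_zero (Nat.zero_le _), cc_zero (Nat.zero_le _), cc_zero (Nat.zero_le _)]
    rcases i with _ | i
    · unfold UP; simp
    · simp
  | succ m ih =>
    have hcc : ∀ k : ℕ, cc (m + 1) k = cc m k + ((m.choose k : ℕ) : ℤ) ^ 4 := by
      intro k
      unfold cc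
      rw [Finset.sum_range_succ]
    rw [hcc, hcc, hcc]
    have := rho_step m i
    push_cast
    linear_combination ih - this

end Pool.Agent.H62.S36
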